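import Mathlib
import Pool.Graph.R_pool_sql_team_seeded_620a6dc7.Helper911_Chev.Final

/-! Combinatorics of the Weyl group for the simple root in the refined Schneider conjecture. -/

set_option autoImplicit false
set_option linter.unusedSectionVars false
set_option maxHeartbeats 1000000

noncomputable section

open Matrix Topology Filter

namespace Pool.Agent.KS6_26.SR

open Pool.Agent.Chev Pool.Agent.Chev.ChevData Pool.Agent.Helper911

variable {p : ℕ} [Fact p.Prime] {I ι : Type} [Fintype I] [DecidableEq I] [Fintype ι]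
  [DecidableEq ι] (D : ChevData p I ι)

theorem s_inv' (j : I) : (D.s j)⁻¹ = D.s j := by
  rw [inv_eq_iff_mul_eq_one]
  ext μ l
  show (D.s j (D.s j μ)) l = μ l
  exact congrFun ((D.s j).left_inv μ) l

theorem apply_inv' (w : (I → ℤ) ≃ₗ[ℤ] (I → ℤ)) (μ : I → ℤ) : w (w⁻¹ μ) = μ :=
  w.apply_symm_apply μ

theorem inv_apply' (w : (I → ℤ) ≃ₗ[ℤ] (I → ℤ)) (μ : I → ℤ) : w⁻¹ (w μ) = μ :=
  w.symm_apply_apply μ

/-- If `w` maps the simple root `α_k` to the simple root `α_j`, then it maps the coroots to each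
other. -/
theorem coroot_simple {w : (I → ℤ) ≃ₗ[ℤ] (I → ℤ)} (hw : w ∈ D.W) {k j : I}
    (h : w (D.A k) = D.A j) (μ : I → ℤ) : (w⁻¹ μ) k = μ j := by
  obtain ⟨g, hg, hrep⟩ := W_rep D hw
  have hgN : g ∈ D.NN := closure_n_le D hg
  obtain ⟨τ, hτ⟩ := NN_conj_n D hgN hrep k j h
  have h1 : D.Rep (g * D.n k * g⁻¹) (w * D.s k * w⁻¹) :=
    rep_mul D (rep_mul D hrep (NNc_rep_n D k)) (rep_inv D hrep)
  have h2 : D.Rep (D.h τ * D.n j) (1 * D.s j) := rep_mul D (rep_h D τ) (NNc_rep_n D j)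
  rw [hτ] at h1
  have h3 := rep_unique D h1 h2
  have h4 : w (D.s k (w⁻¹ μ)) = D.s j μ := by
    have := congrArg (fun f : (I → ℤ) ≃ₗ[ℤ] (I → ℤ) => f μ) h3
    simpa using this
  rw [s_apply, s_apply, map_sub, map_smul, h, apply_inv'] at h4
  have h5 := congrFun h4 j
  simp only [Pi.sub_apply, Pi.smul_apply, D.A_diag, smul_eq_mul] at h5
  omega

theorem pos_contra {μ : I → ℤ} (h : D.Pos μ) (h' : D.Pos (-μ)) : False := NNc_pos_neg D h h'

/-- The group generated by the reflections in `J`. -/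
def WJ (J : Set I) : Subgroup ((I → ℤ) ≃ₗ[ℤ] (I → ℤ)) := Subgroup.closure (D.s '' J)

theorem WJ_le (J : Set I) : WJ D J ≤ D.W := by
  unfold WJ ChevData.W
  exact Subgroup.closure_mono (Set.image_subset_range _ _)

/-- Elements of `WJ` change weights by combinations of the roots in `J`. -/
theorem WJ_diff (J : Set I) {x : (I → ℤ) ≃ₗ[ℤ] (I → ℤ)} (hx : x ∈ WJ D J) (μ : I → ℤ) :
    ∃ n : I → ℤ, (∀ l, l ∉ J → n l = 0) ∧ x μ = μ + D.rt n := by
  have step : ∀ k ∈ J, ∀ y : (I → ℤ) ≃ₗ[ℤ] (I → ℤ),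
      (∃ n : I → ℤ, (∀ l, l ∉ J → n l = 0) ∧ y μ = μ + D.rt n) →
      ∃ n : I → ℤ, (∀ l, l ∉ J → n l = 0) ∧ (D.s k * y) μ = μ + D.rt n := by
    rintro k hk y ⟨n, hn, h⟩
    refine ⟨n - (y μ) k • Pi.single k 1, fun l hl => ?_, ?_⟩
    · have hlk : l ≠ k := fun h => hl (h ▸ hk)
      simp [hn l hl, Pi.single_eq_of_ne hlk]
    · show D.s k (y μ) = _
      rw [s_apply, sub_eq_add_neg n, rt_add, rt_neg, rt_smul', rt_single]
      rw [← add_assoc, ← h, sub_eq_add_neg]
  unfold WJ at hx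
  induction hx using Subgroup.closure_induction_left with
  | one => exact ⟨0, fun _ _ => rfl, by rw [rt_zero, add_zero]; rfl⟩
  | mul_left x hx y hy ih =>
    obtain ⟨k, hk, rfl⟩ := hx
    exact step k hk y ih
  | inv_mul_cancel x hx y hy ih =>
    obtain ⟨k, hk, rfl⟩ := hx
    rw [s_inv']
    exact step k hk y ih

/-- Positive roots which stay positive under `u` are stable under `WJ`, `J` the descents of `u`. -/
theorem WJ_stable {u : (I → ℤ) ≃ₗ[ℤ] (I → ℤ)} (hu : u ∈ D.W)
    (H : ∀ k, D.Pos (-(u (D.A k))) → ∀ x ∈ D.W, ∀ i, D.Pos (x (D.A i)) →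
      D.Pos (u (x (D.A i))) → D.Pos (u (D.s k (x (D.A i)))))
    {x : (I → ℤ) ≃ₗ[ℤ] (I → ℤ)} (hx : x ∈ WJ D {k | D.Pos (-(u (D.A k)))}) (i : I)
    (hi : D.Pos (u (D.A i))) : D.Pos (x (D.A i)) ∧ D.Pos (u (x (D.A i))) := by
  have step : ∀ k, D.Pos (-(u (D.A k))) → ∀ y ∈ D.W,
      (D.Pos (y (D.A i)) ∧ D.Pos (u (y (D.A i)))) →
      D.Pos ((D.s k * y) (D.A i)) ∧ D.Pos (u ((D.s k * y) (D.A i))) := by
    rintro k hk y hy ⟨h1, h2⟩
    refine ⟨weyl_refl_pos D hy k i h1 ?_, H k hk y hy i h1 h2⟩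
    intro h
    rw [h] at h2
    exact pos_contra D h2 hk
  unfold WJ at hx
  induction hx using Subgroup.closure_induction_left with
  | one => exact ⟨pos_A D i, hi⟩
  | mul_left x hx y hy ih =>
    obtain ⟨k, hk, rfl⟩ := hx
    exact step k hk y (WJ_le D _ hy) ih
  | inv_mul_cancel x hx y hy ih =>
    obtain ⟨k, hk, rfl⟩ := hx
    rw [s_inv']
    exact step k hk y (WJ_le D _ hy) ih

/-- A Weyl group element satisfying the condition `H` maps some simple root to the negative of a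
simple root. -/
theorem exists_simple {u : (I → ℤ) ≃ₗ[ℤ] (I → ℤ)} (hu : u ∈ D.W)
    (hJ : ∃ k, D.Pos (-(u (D.A k))))
    (H : ∀ k, D.Pos (-(u (D.A k))) → ∀ x ∈ D.W, ∀ i, D.Pos (x (D.A i)) →
      D.Pos (u (x (D.A i))) → D.Pos (u (D.s k (x (D.A i))))) :
    ∃ k a, D.Pos (-(u (D.A k))) ∧ u (D.A k) = -(D.A a) := by
  classical
  set J : Set I := {k | D.Pos (-(u (D.A k)))} with hJdef
  -- a maximiser
  haveI hWf : Finite D.W := W_finite D
  haveI : Finite (WJ D J) := by
    refine Finite.of_injective (fun x : WJ D J => (⟨x.1, WJ_le D J x.2⟩ : D.W)) ?_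
    intro x y h
    exact Subtype.ext (congrArg (fun z : D.W => z.1) h)
  obtain ⟨x, hx⟩ := Finite.exists_max (fun x : WJ D J => Pool.Agent.Chev.ht D (u (x.1 (fun _ => 1))))
  have hux : u * x.1 ∈ D.W := mul_mem hu (WJ_le D J x.2)
  have h1 : ∀ k, D.Pos ((u * x.1) (D.A k)) := by
    intro k
    by_cases hk : k ∈ J
    · rcases weyl_sign D hux k with h | h
      · exact h
      · exfalso
        have hxs : x.1 * D.s k ∈ WJ D J :=
          mul_mem x.2 (Subgroup.subset_closure ⟨k, hk, rfl⟩)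
        have h2 := hx ⟨x.1 * D.s k, hxs⟩
        have h3 : u ((x.1 * D.s k) (fun _ => 1)) = u (x.1 (fun _ => 1)) + -((u * x.1) (D.A k)) := by
          show u (x.1 (D.s k (fun _ => 1))) = _
          rw [s_apply, one_smul, map_sub, map_sub]
          show _ = u (x.1 fun _ => 1) + -(u (x.1 (D.A k)))
          abel
        have h4 := ht_pos D h
        simp only [h3] at h2
        rw [ht_add] at h2
        omega
    · have hi : D.Pos (u (D.A k)) := (weyl_sign D hu k).resolve_right hk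
      exact (WJ_stable D hu H x.2 k hi).2
  have h2 : u * x.1 = 1 := W_one_of_pos D hux h1
  have hinv : u⁻¹ = x.1 := by
    rw [inv_eq_iff_mul_eq_one]; exact h2
  -- a simple root which is made negative by the inverse
  obtain ⟨a, ha⟩ : ∃ a, D.Pos (-(u⁻¹ (D.A a))) := by
    by_contra hcon
    push Not at hcon
    have h3 : u⁻¹ = 1 := W_one_of_pos D (inv_mem hu) fun k =>
      (weyl_sign D (inv_mem hu) k).resolve_right (hcon k)
    obtain ⟨k, hk⟩ := hJ
    have h4 : u = 1 := by rw [← inv_inv u, h3, inv_one]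
    rw [h4] at hk
    exact pos_contra D (pos_A D k) hk
  obtain ⟨n, hn, hn2⟩ := WJ_diff D J (x := u⁻¹) (by rw [hinv]; exact x.2) (D.A a)
  obtain ⟨c, hc, hc0, hceq⟩ := ha
  have h5 : c = -(Pi.single a 1) + -n := by
    apply rt_inj' D
    rw [← hceq, hn2, rt_add, rt_neg, rt_neg, rt_single]
    abel
  have haJ : a ∈ J := by
    by_contra hcon
    have h6 := congrFun h5 a
    have h7 := hc a
    simp only [Pi.add_apply, Pi.neg_apply, Pi.single_eq_same, hn a hcon] at h6
    omega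
  have hcJ : ∀ l, l ∉ J → c l = 0 := by
    intro l hl
    have h6 := congrFun h5 l
    have h7 : l ≠ a := fun h => hl (h ▸ haJ)
    simp only [Pi.add_apply, Pi.neg_apply, Pi.single_eq_of_ne h7, hn l hl] at h6
    simpa using h6
  have hd : ∀ l, ∃ d : I → ℤ, (∀ m, 0 ≤ d m) ∧ (l ∈ J → d ≠ 0 ∧ -(u (D.A l)) = D.rt d) := by
    intro l
    by_cases hl : l ∈ J
    · obtain ⟨d, h1, h2, h3⟩ := hl
      exact ⟨d, h1, fun _ => ⟨h2, h3⟩⟩
    · exact ⟨0, fun _ => le_rfl, fun h => absurd h hl⟩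
  choose d hd0 hd1 using hd
  have hrtsum : D.rt c = ∑ l, c l • D.A l := by
    unfold ChevData.rt
    rw [Matrix.vecMul_eq_sum]
  have h8 : D.A a = -(u (D.rt c)) := by
    rw [← hceq, map_neg, apply_inv', neg_neg]
  have hrt_sum : ∀ (s : Finset I) (f : I → I → ℤ), D.rt (∑ l ∈ s, f l) = ∑ l ∈ s, D.rt (f l) := by
    intro s f
    induction s using Finset.cons_induction with
    | empty => rw [Finset.sum_empty, Finset.sum_empty, rt_zero]
    | cons b s hb ih => rw [Finset.sum_cons, Finset.sum_cons, rt_add, ih]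
  have h9 : (Pi.single a 1 : I → ℤ) = ∑ l, c l • d l := by
    apply rt_inj' D
    rw [rt_single, h8, hrtsum, map_sum, hrt_sum, ← Finset.sum_neg_distrib]
    refine Finset.sum_congr rfl fun l _ => ?_
    rw [map_smul, rt_smul']
    by_cases hl : l ∈ J
    · rw [← (hd1 l hl).2, smul_neg]
    · rw [hcJ l hl]; simp
  obtain ⟨l, hl⟩ : ∃ l, c l ≠ 0 := by
    by_contra hcon
    push Not at hcon
    exact hc0 (funext hcon)
  have hlJ : l ∈ J := by
    by_contra h
    exact hl (hcJ l h)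
  have hle : ∀ m, d l m ≤ (Pi.single a 1 : I → ℤ) m := by
    intro m
    rw [h9, Finset.sum_apply]
    have h10 : c l * d l m ≤ ∑ l', (c l' • d l') m := by
      refine Finset.single_le_sum (f := fun l' => (c l' • d l') m) (fun l' _ => ?_)
        (Finset.mem_univ l)
      exact mul_nonneg (hc l') (hd0 l' m)
    have h11 : 1 ≤ c l := by have := hc l; omega
    nlinarith [hd0 l m]
  refine ⟨l, a, hlJ, ?_⟩
  have hdl : d l = Pi.single a 1 := by
    have hz : ∀ m, m ≠ a → d l m = 0 := by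
      intro m hm
      have h12 := hle m
      rw [Pi.single_eq_of_ne hm] at h12
      exact le_antisymm h12 (hd0 l m)
    have hda : d l a = 1 := by
      have h12 := hle a
      rw [Pi.single_eq_same] at h12
      have h13 := hd0 l a
      rcases (by omega : d l a = 0 ∨ d l a = 1) with h | h
      · exfalso
        apply (hd1 l hlJ).1
        funext m
        by_cases hm : m = a
        · rw [hm]; exact h
        · exact hz m hm
      · exact h
    funext m
    by_cases hm : m = a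
    · rw [hm, hda, Pi.single_eq_same]
    · rw [hz m hm, Pi.single_eq_of_ne hm]
  have h14 := (hd1 l hlJ).2
  rw [hdl, rt_single] at h14
  rw [← h14, neg_neg]

end Pool.Agent.KS6_26.SR
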