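import Mathlib
import Pool.Agent.KS6_26.SR.Comb
import Pool.Graph.R_pool_sql_team_seeded_620a6dc7.Helper911_Chev.CH6

/-! The algebraic part of the key step: a root subgroup element whose conjugates by all elements of
a simple root subgroup stay in a compact part of the chart gives a contradiction. -/

set_option autoImplicit false
set_option linter.unusedSectionVars false
set_option maxHeartbeats 1000000

noncomputable section

open Matrix Topology Filter

namespace Pool.Agent.KS6_26.SR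

open Pool.Agent.Chev Pool.Agent.Chev.ChevData Pool.Agent.Helper911

variable {p : ℕ} [Fact p.Prime] {I ι : Type} [Fintype I] [DecidableEq I] [Fintype ι]
  [DecidableEq ι] (D : ChevData p I ι)

theorem ch_hc (a : ℚ_[p]ˣ) (c μ : I → ℤ) : cb4ch (fun k => a ^ c k) μ = a ^ gsph c μ := by
  unfold cb4ch gsph
  simp only [← _root_.zpow_mul]
  exact zpow_sum_aux_DV1 _ _ a

/-- Conjugation of a root subgroup element by a cocharacter. -/
theorem hv_conj {g : GLm p ι} {w : (I → ℤ) ≃ₗ[ℤ] (I → ℤ)} (hw : D.Rep g w) (i : I) (c : I → ℤ)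
    (a : ℚ_[p]ˣ) (v : ℚ_[p]) :
    D.hc c a * (g * D.y i v * g⁻¹) * (D.hc c a)⁻¹
      = g * D.y i ((((a ^ gsph c (w (D.A i)))⁻¹ : ℚ_[p]ˣ) : ℚ_[p]) * v) * g⁻¹ := by
  have h1 := rep_conj D (rep_inv D hw) (fun k => a ^ c k)
  rw [inv_inv] at h1
  have h2 := h_conj_y D i (act w⁻¹ (fun k => a ^ c k)) v
  have h3 : al D i (act w⁻¹ (fun k => a ^ c k)) = a ^ gsph c (w (D.A i)) := by
    have h4 := cb4ch_act w⁻¹ (fun k => a ^ c k) (D.A i)
    rw [inv_inv, ch_hc] at h4
    exact h4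
  rw [h3] at h2
  rw [← h2, ← h1]
  show D.hc c a * (g * D.y i v * g⁻¹) * (D.hc c a)⁻¹
    = g * (g⁻¹ * D.hc c a * g * D.y i v * (g⁻¹ * D.hc c a * g)⁻¹) * g⁻¹
  group

theorem xk_conj (k : I) (c : I → ℤ) (a : ℚ_[p]ˣ) (t : ℚ_[p]) :
    D.hc c a * D.x k t * (D.hc c a)⁻¹ = D.x k (((a ^ gsph c (D.A k) : ℚ_[p]ˣ) : ℚ_[p]) * t) := by
  have h2 := h_conj_x D k (fun k => a ^ c k) t
  have h3 : al D k (fun k => a ^ c k) = a ^ gsph c (D.A k) := ch_hc a c (D.A k)
  rw [h3] at h2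
  exact h2

/-- The entries of an element whose conjugate is lower triangular. -/
theorem supp_of_conj {e : GLm p ι} {u : (I → ℤ) ≃ₗ[ℤ] (I → ℤ)} (hu : D.Rep e u) {y : GLm p ι}
    (h : e * y * e⁻¹ ∈ D.UM) (a b : ι) (hab : ((y : Matrix ι ι ℚ_[p]) - 1) a b ≠ 0) :
    D.Pos (-(u (D.wt a - D.wt b))) := by
  have h1 : D.Supp {μ | D.Pos (-μ)} (((e * y * e⁻¹ : GLm p ι) : Matrix ι ι ℚ_[p]) - 1) := h.1
  have h2 := supp_cj D (rep_inv D hu) h1
  have e4 : cj e⁻¹ (((e * y * e⁻¹ : GLm p ι) : Matrix ι ι ℚ_[p]) - 1) =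
      (y : Matrix ι ι ℚ_[p]) - 1 := by
    have hA : ((e⁻¹ : GLm p ι) : Matrix ι ι ℚ_[p]) * (e : Matrix ι ι ℚ_[p]) = 1 := by
      rw [← Units.val_mul, inv_mul_cancel, Units.val_one]
    unfold cj
    rw [inv_inv, Units.val_mul, Units.val_mul]
    calc ((e⁻¹ : GLm p ι) : Matrix ι ι ℚ_[p]) *
          ((e : Matrix ι ι ℚ_[p]) * (y : Matrix ι ι ℚ_[p]) *
            ((e⁻¹ : GLm p ι) : Matrix ι ι ℚ_[p]) - 1) * (e : Matrix ι ι ℚ_[p])
        = (((e⁻¹ : GLm p ι) : Matrix ι ι ℚ_[p]) * (e : Matrix ι ι ℚ_[p])) *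
            (y : Matrix ι ι ℚ_[p]) *
            (((e⁻¹ : GLm p ι) : Matrix ι ι ℚ_[p]) * (e : Matrix ι ι ℚ_[p])) -
            ((e⁻¹ : GLm p ι) : Matrix ι ι ℚ_[p]) * (e : Matrix ι ι ℚ_[p]) := by noncomm_ring
      _ = _ := by rw [hA, one_mul, mul_one]
  rw [e4] at h2
  obtain ⟨μ, hμ, hμ'⟩ := h2 a b hab
  rw [← hμ', apply_inv']
  exact hμ

theorem Q_le_UMk {e : GLm p ι} {u : (I → ℤ) ≃ₗ[ℤ] (I → ℤ)} (hu : D.Rep e u) {k : I}
    (hneg : D.Pos (-(u (D.A k)))) {y : GLm p ι} (hy : y ∈ D.Nb) (hy' : e * y * e⁻¹ ∈ D.Nb) :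
    y ∈ D.UMk k := by
  obtain ⟨t, ht⟩ := Nb_split D k hy
  have hF := CH6.F_ne D k
  obtain ⟨a, b, hab⟩ : ∃ a b, D.F k a b ≠ 0 := by
    by_contra hcon
    push Not at hcon
    exact hF (by ext i j; exact hcon i j)
  have hwt := D.F_wt k a b hab
  have h1 := CH6.mul_entry D k (-t) ht a b hwt
  have h2 : y * D.y k t * D.y k (-t) = y := by
    rw [mul_assoc, ← y_add, add_neg_cancel, y_zero, mul_one]
  rw [h2] at h1
  have hne : a ≠ b := by
    rintro rfl
    have h3 : D.A k = 0 := by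
      have := hwt
      rw [eq_comm, sub_eq_self] at this
      exact this
    have h4 := D.A_diag k
    rw [h3] at h4
    simp at h4
  have h5 : ((y : Matrix ι ι ℚ_[p]) - 1) a b = 0 := by
    by_contra hcon
    have h6 := supp_of_conj D hu (Nb_le_UM D hy') a b hcon
    have h7 : D.wt a - D.wt b = -(D.A k) := by rw [hwt]; abel
    rw [h7, map_neg, neg_neg] at h6
    exact pos_contra D h6 hneg
  rw [Matrix.sub_apply, Matrix.one_apply_ne hne, sub_zero, h1] at h5
  have h8 : t = 0 := by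
    have := (mul_eq_zero.1 h5).resolve_right hab
    simpa using this
  rw [h8, y_zero, mul_one] at ht
  exact ht

theorem gsph_neg_left (c μ : I → ℤ) : gsph (-c) μ = - gsph c μ := by
  unfold gsph
  rw [← Finset.sum_neg_distrib]
  refine Finset.sum_congr rfl fun k _ => ?_
  rw [Pi.neg_apply]; ring

/-- A lower triangular element, bounded under the torus elements which centralise a root `γ`, is
trivial, if it stays lower triangular under `u` and `u γ` is negative. -/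
theorem one_of_bdd {u : (I → ℤ) ≃ₗ[ℤ] (I → ℤ)} {Y : GLm p ι}
    (h1 : ∀ a b, ((Y : Matrix ι ι ℚ_[p]) - 1) a b ≠ 0 → D.Pos (-(D.wt a - D.wt b)))
    (h2 : ∀ a b, ((Y : Matrix ι ι ℚ_[p]) - 1) a b ≠ 0 → D.Pos (-(u (D.wt a - D.wt b))))
    {γ : I → ℤ} (hγ : D.Pos γ) (hγ' : D.Pos (-(u γ)))
    (hb : ∀ c : I → ℤ, gsph c γ = 0 → ∀ m : ℕ,
      D.hc c (pu p ^ m) * Y * (D.hc c (pu p ^ m))⁻¹ ∈ Cg p ι 0) : Y = 1 := by
  by_contra hY
  obtain ⟨a, b, hab⟩ : ∃ a b, ((Y : Matrix ι ι ℚ_[p]) - 1) a b ≠ 0 := by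
    by_contra hcon
    push Not at hcon
    apply hY
    apply Units.ext
    rw [Units.val_one]
    exact sub_eq_zero.1 (by ext i j; exact hcon i j)
  set μ := D.wt a - D.wt b with hμ
  have hμ1 := h1 a b hab
  have hμ2 := h2 a b hab
  have hne : a ≠ b := by
    rintro rfl
    rw [sub_self, neg_zero] at hμ1
    exact D.pos_conic.zero hμ1
  have hYab : (Y : Matrix ι ι ℚ_[p]) a b ≠ 0 := by
    rwa [Matrix.sub_apply, Matrix.one_apply_ne hne, sub_zero] at hab
  have hpR : (1 : ℝ) < p := by exact_mod_cast (Fact.out : p.Prime).one_lt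
  -- the pairing with cocharacters killing `γ`
  have hneg : ∀ c : I → ℤ, gsph c γ = 0 → ¬ gsph c μ < 0 := by
    intro c hc hlt
    obtain ⟨m, hm⟩ : ∃ m : ℕ, 1 < (p : ℝ) ^ m * ‖(Y : Matrix ι ι ℚ_[p]) a b‖ := by
      have hpos : 0 < ‖(Y : Matrix ι ι ℚ_[p]) a b‖ := norm_pos_iff.2 hYab
      obtain ⟨m, hm⟩ := pow_unbounded_of_one_lt (‖(Y : Matrix ι ι ℚ_[p]) a b‖⁻¹) hpR
      refine ⟨m, ?_⟩
      rwa [inv_lt_iff_one_lt_mul₀ hpos] at hm
    have h3 := CH1.norm_le_one (m := 0) (hb c hc m).1 a b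
    rw [hc_conj_apply, norm_mul] at h3
    have h4 : (∑ k, c k * (D.wt a - D.wt b) k) = gsph c μ := rfl
    rw [h4, ← _root_.zpow_natCast, ← _root_.zpow_mul, norm_pu_zpow] at h3
    have h5 : (p : ℝ) ^ m ≤ (p : ℝ) ^ (-((m : ℤ) * gsph c μ)) := by
      rw [← zpow_natCast]
      apply zpow_le_zpow_right₀ hpR.le
      have : (0 : ℤ) ≤ m := Int.natCast_nonneg m
      nlinarith
    have h6 := mul_le_mul_of_nonneg_right h5 (norm_nonneg ((Y : Matrix ι ι ℚ_[p]) a b))
    linarith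
  have hzero : ∀ c : I → ℤ, gsph c γ = 0 → gsph c μ = 0 := by
    intro c hc
    have h3 := hneg c hc
    have h4 := hneg (-c) (by rw [gsph_neg_left, hc, neg_zero])
    rw [gsph_neg_left] at h4
    omega
  -- `μ` is proportional to `γ`
  have hprop : ∀ r s : I, γ r * μ s = γ s * μ r := by
    intro r s
    have h3 : ∀ ν : I → ℤ, gsph (γ r • Pi.single s 1 - γ s • Pi.single r 1) ν
        = γ r * ν s - γ s * ν r := by
      intro ν
      unfold gsph
      simp only [Pi.sub_apply, Pi.smul_apply, smul_eq_mul, sub_mul, Finset.sum_sub_distrib]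
      congr 1
      · rw [Finset.sum_eq_single s]
        · simp
        · intro j _ hj; rw [Pi.single_eq_of_ne hj]; ring
        · intro h; exact absurd (Finset.mem_univ _) h
      · rw [Finset.sum_eq_single r]
        · simp
        · intro j _ hj; rw [Pi.single_eq_of_ne hj]; ring
        · intro h; exact absurd (Finset.mem_univ _) h
    have h4 := hzero (γ r • Pi.single s 1 - γ s • Pi.single r 1) (by rw [h3]; ring)
    rw [h3] at h4
    linarith
  have hγ0 : γ ≠ 0 := by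
    rintro rfl
    exact D.pos_conic.zero hγ
  obtain ⟨r, hr⟩ : ∃ r, γ r ≠ 0 := by
    by_contra hcon
    push Not at hcon
    exact hγ0 (funext hcon)
  have hvec : γ r • μ = μ r • γ := by
    funext s
    simp only [Pi.smul_apply, smul_eq_mul]
    rw [hprop r s]; ring
  have e1 : γ r * Pool.Agent.Chev.ht D μ = μ r * Pool.Agent.Chev.ht D γ := by
    rw [← ht_smul', ← ht_smul', hvec]
  have e2 : γ r * Pool.Agent.Chev.ht D (u μ) = μ r * Pool.Agent.Chev.ht D (u γ) := by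
    rw [← ht_smul', ← ht_smul', ← map_smul, ← map_smul, hvec]
  have i1 := ht_pos D hμ1
  have i2 := ht_pos D hμ2
  have i3 := ht_pos D hγ
  have i4 := ht_pos D hγ'
  rw [ht_neg] at i1 i2 i4
  rcases lt_or_gt_of_ne hr with hr | hr
  · have j1 : 0 < μ r := by
      by_contra hcon
      push Not at hcon
      have : μ r * Pool.Agent.Chev.ht D γ ≤ 0 := mul_nonpos_of_nonpos_of_nonneg hcon i3.le
      rw [← e1] at this
      nlinarith
    nlinarith
  · have j1 : μ r < 0 := by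
      by_contra hcon
      push Not at hcon
      have : 0 ≤ μ r * Pool.Agent.Chev.ht D γ := mul_nonneg hcon i3.le
      rw [← e1] at this
      nlinarith
    nlinarith

end Pool.Agent.KS6_26.SR
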