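import Mathlib
import Pool.Agent.KS6_26.SR.Alg
import Pool.Graph.R_pool_sql_team_seeded_620a6dc7.Helper911_Chev.CE4

/-! The algebraic part of the key step, continued. -/

set_option autoImplicit false
set_option linter.unusedSectionVars false
set_option maxHeartbeats 1000000

noncomputable section

open Matrix Topology Filter

namespace Pool.Agent.KS6_26.SR

open Pool.Agent.Chev Pool.Agent.Chev.ChevData Pool.Agent.Helper911

variable {p : ℕ} [Fact p.Prime] {I ι : Type} [Fintype I] [DecidableEq I] [Fintype ι]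
  [DecidableEq ι] (D : ChevData p I ι)

/-- The root subgroup element of the root `-w α_i`. -/
def hv (g : GLm p ι) (i : I) (v : ℚ_[p]) : GLm p ι := g * D.y i v * g⁻¹

theorem hv_Nb {g : GLm p ι} (hg : g ∈ D.NN) {w : (I → ℤ) ≃ₗ[ℤ] (I → ℤ)} (hw : D.Rep g w) {i : I}
    (h1 : D.Pos (w (D.A i))) (v : ℚ_[p]) : hv D g i v ∈ D.Nb := (NN_conj D hg hw i v).2.2.1 h1

theorem hv_UMk {g : GLm p ι} (hg : g ∈ D.NN) {w : (I → ℤ) ≃ₗ[ℤ] (I → ℤ)} (hw : D.Rep g w)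
    {i k : I} (h1 : D.Pos (w (D.A i))) (hne : w (D.A i) ≠ D.A k) (v : ℚ_[p]) :
    hv D g i v ∈ D.UMk k := by
  have hwW : w ∈ D.W := NN_rep_mem D hg hw
  have h2 : hv D g i v = exU (cj g (v • D.F i)) := exU_conj g (tF_nil D i v)
  rw [h2]
  refine exU_mem_US D _ _ _ ?_
  have h3 : D.Supp {-(D.A i)} (v • D.F i) := by
    intro a b hab
    have h4 : D.F i a b ≠ 0 := by
      intro h5
      apply hab
      rw [Matrix.smul_apply, h5, smul_zero]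
    rw [Set.mem_singleton_iff, D.F_wt i a b h4]
    abel
  have h4 := supp_cj D hw h3
  rw [Set.image_singleton, map_neg] at h4
  intro a b hab
  have h5 := h4 a b hab
  rw [Set.mem_singleton_iff] at h5
  show D.PosOff k (-(D.wt a - D.wt b))
  rw [h5, neg_neg]
  have h6 := weyl_off D hwW k i h1 hne 1 le_rfl
  rwa [one_smul] at h6

/-- The subgroup `e⁻¹ N e`. -/
theorem conjN_T {e : GLm p ι} (he : e ∈ D.NN) {t : GLm p ι} (ht : t ∈ D.T) {s : GLm p ι}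
    (hs : e * s * e⁻¹ ∈ D.N) : e * (t * s * t⁻¹) * e⁻¹ ∈ D.N := by
  have h1 := NN_norm_T D he ht
  have h2 := conj_T_N D h1 hs
  have h3 : e * (t * s * t⁻¹) * e⁻¹ = e * t * e⁻¹ * (e * s * e⁻¹) * (e * t * e⁻¹)⁻¹ := by group
  rw [h3]; exact h2

theorem conjNb_T {e : GLm p ι} (he : e ∈ D.NN) {t : GLm p ι} (ht : t ∈ D.T) {s : GLm p ι}
    (hs : e * s * e⁻¹ ∈ D.Nb) : e * (t * s * t⁻¹) * e⁻¹ ∈ D.Nb := by
  have h1 := NN_norm_T D he ht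
  have h2 := conj_T_Nb D h1 hs
  have h3 : e * (t * s * t⁻¹) * e⁻¹ = e * t * e⁻¹ * (e * s * e⁻¹) * (e * t * e⁻¹)⁻¹ := by group
  rw [h3]; exact h2

/-- Uniqueness of the decomposition into the stabiliser and `Q`. -/
theorem decomp_unique {e s q s' q' : GLm p ι} (hs : e * s * e⁻¹ ∈ D.N) (hq : e * q * e⁻¹ ∈ D.Nb)
    (hs' : e * s' * e⁻¹ ∈ D.N) (hq' : e * q' * e⁻¹ ∈ D.Nb) (h : s * q = s' * q') : q = q' := by
  have h1 : s'⁻¹ * s = q' * q⁻¹ := by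
    have h2 : s'⁻¹ * s = s'⁻¹ * (s * q) * q⁻¹ := by group
    rw [h2, h]; group
  have h3 : e * (q' * q⁻¹) * e⁻¹ ∈ D.Nb := by
    have : e * (q' * q⁻¹) * e⁻¹ = (e * q' * e⁻¹) * (e * q * e⁻¹)⁻¹ := by group
    rw [this]; exact mul_mem hq' (inv_mem hq)
  have h4 : e * (q' * q⁻¹) * e⁻¹ ∈ D.N := by
    rw [← h1]
    have : e * (s'⁻¹ * s) * e⁻¹ = (e * s' * e⁻¹)⁻¹ * (e * s * e⁻¹) := by group
    rw [this]; exact mul_mem (inv_mem hs') hs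
  have h5 := N_inter_Nb D h4 h3
  have h6 : q' * q⁻¹ = 1 := by
    have : q' * q⁻¹ = e⁻¹ * (e * (q' * q⁻¹) * e⁻¹) * e := by group
    rw [this, h5]; group
  exact (mul_inv_eq_one.1 h6).symm

/-- The conjugate of `hv` by the simple root subgroup is in `Nb`. -/
theorem conj_hv_Nb {g : GLm p ι} (hg : g ∈ D.NN) {w : (I → ℤ) ≃ₗ[ℤ] (I → ℤ)} (hw : D.Rep g w)
    {i k : I} (h1 : D.Pos (w (D.A i))) (hne : w (D.A i) ≠ D.A k) (v t : ℚ_[p]) :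
    D.x k t * hv D g i v * (D.x k t)⁻¹ ∈ D.Nb :=
  Nbk_stable D k (hv_Nb D hg hw h1 v) (hv_UMk D hg hw h1 hne v) (x_mem_Hk D k t)

/-- `Q` is normalised by the simple root subgroup. -/
theorem Q_conj {e : GLm p ι} (he : e ∈ D.NN) {u : (I → ℤ) ≃ₗ[ℤ] (I → ℤ)} (hu : D.Rep e u) {k : I}
    (hneg : D.Pos (-(u (D.A k)))) {q : GLm p ι} (hq : q ∈ D.Nb) (hq' : e * q * e⁻¹ ∈ D.Nb)
    (t : ℚ_[p]) : (D.x k t)⁻¹ * q * D.x k t ∈ D.Nb ∧
      e * ((D.x k t)⁻¹ * q * D.x k t) * e⁻¹ ∈ D.Nb := by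
  have h1 := Nbk_stable D k hq (Q_le_UMk D hu hneg hq hq') (inv_mem (x_mem_Hk D k t))
  rw [inv_inv] at h1
  refine ⟨h1, ?_⟩
  have h2 := (NN_conj D he hu k t).2.1 hneg
  have h3 : e * ((D.x k t)⁻¹ * q * D.x k t) * e⁻¹
      = (e * D.x k t * e⁻¹)⁻¹ * (e * q * e⁻¹) * (e * D.x k t * e⁻¹) := by group
  rw [h3]
  exact mul_mem (mul_mem (inv_mem h2) hq') h2

/-- The key algebraic step. -/
theorem alg_stab {e : GLm p ι} (he : e ∈ D.NN) {u : (I → ℤ) ≃ₗ[ℤ] (I → ℤ)} (hu : D.Rep e u)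
    {k : I} (hneg : D.Pos (-(u (D.A k)))) {g : GLm p ι} (hg : g ∈ D.NN)
    {w : (I → ℤ) ≃ₗ[ℤ] (I → ℤ)} (hw : D.Rep g w) {i : I} (h1 : D.Pos (w (D.A i)))
    (hne : w (D.A i) ≠ D.A k) (h2 : D.Pos (-(u (w (D.A i))))) {v : ℚ_[p]}
    (H : ∀ t : ℚ_[p]ˣ, ∀ s q : GLm p ι, e * s * e⁻¹ ∈ D.N → q ∈ D.Nb → e * q * e⁻¹ ∈ D.Nb →
      D.x k t * hv D g i v * (D.x k t)⁻¹ = s * q → (D.x k t)⁻¹ * q * D.x k t ∈ Cg p ι 1)
    (t : ℚ_[p]ˣ) : e * (D.x k t * hv D g i v * (D.x k t)⁻¹) * e⁻¹ ∈ D.N := by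
  obtain ⟨s, hs, hsN, q, hq, hqN, hsq⟩ := Nb_decomp D he _ (conj_hv_Nb D hg hw h1 hne v t)
  obtain ⟨hY1, hY2⟩ := Q_conj D he hu hneg hq hqN (t : ℚ_[p])
  have hY : (D.x k (t : ℚ_[p]))⁻¹ * q * D.x k (t : ℚ_[p]) = 1 := by
    refine one_of_bdd D (u := u) (fun a b hab => (Nb_le_UM D hY1).1 a b hab)
      (fun a b hab => supp_of_conj D hu (Nb_le_UM D hY2) a b hab) h1 h2 ?_
    intro c hc m
    set a : ℚ_[p]ˣ := pu p ^ m with ha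
    set τ : GLm p ι := D.hc c a with hτ
    have hτT : τ ∈ D.T := hc_mem_T D c a
    set t1 : ℚ_[p]ˣ := a ^ gsph c (D.A k) * t with ht1
    have hx1 : τ * D.x k (t : ℚ_[p]) * τ⁻¹ = D.x k (t1 : ℚ_[p]) := by
      rw [hτ, xk_conj, ht1, Units.val_mul]
    have hh1 : τ * hv D g i v * τ⁻¹ = hv D g i v := by
      unfold hv
      rw [hτ, hv_conj D hw, hc, zpow_zero, inv_one, Units.val_one, one_mul]
    have hX1 : D.x k (t1 : ℚ_[p]) * hv D g i v * (D.x k (t1 : ℚ_[p]))⁻¹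
        = (τ * s * τ⁻¹) * (τ * q * τ⁻¹) := by
      rw [← hx1]
      nth_rewrite 1 [← hh1]
      calc (τ * D.x k (t : ℚ_[p]) * τ⁻¹) * (τ * hv D g i v * τ⁻¹) * (τ * D.x k (t : ℚ_[p]) * τ⁻¹)⁻¹
          = τ * (D.x k (t : ℚ_[p]) * hv D g i v * (D.x k (t : ℚ_[p]))⁻¹) * τ⁻¹ := by group
        _ = _ := by rw [hsq]; group
    have h3 := H t1 (τ * s * τ⁻¹) (τ * q * τ⁻¹) (conjN_T D he hτT hsN) (conj_T_Nb D hτT hq)
      (conjNb_T D he hτT hqN) hX1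
    have h4 : τ * ((D.x k (t : ℚ_[p]))⁻¹ * q * D.x k (t : ℚ_[p])) * τ⁻¹
        = (D.x k (t1 : ℚ_[p]))⁻¹ * (τ * q * τ⁻¹) * D.x k (t1 : ℚ_[p]) := by
      rw [← hx1]; group
    rw [h4]
    exact Cg_le h3
  have hq1 : q = 1 := by
    have : q = D.x k (t : ℚ_[p]) * ((D.x k (t : ℚ_[p]))⁻¹ * q * D.x k (t : ℚ_[p])) *
        (D.x k (t : ℚ_[p]))⁻¹ := by group
    rw [this, hY]; group
  rw [hsq, hq1, mul_one]
  exact hsN

theorem alg_false {e : GLm p ι} (he : e ∈ D.NN) {u : (I → ℤ) ≃ₗ[ℤ] (I → ℤ)} (hu : D.Rep e u)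
    {k : I} (hneg : D.Pos (-(u (D.A k)))) {g : GLm p ι} (hg : g ∈ D.NN)
    {w : (I → ℤ) ≃ₗ[ℤ] (I → ℤ)} (hw : D.Rep g w) {i : I} (h1 : D.Pos (w (D.A i)))
    (hne : w (D.A i) ≠ D.A k) (h2 : D.Pos (-(u (w (D.A i)))))
    (h3 : D.Pos (u (D.s k (w (D.A i))))) {v : ℚ_[p]} (hv0 : v ≠ 0)
    (H : ∀ t : ℚ_[p]ˣ, ∀ s q : GLm p ι, e * s * e⁻¹ ∈ D.N → q ∈ D.Nb → e * q * e⁻¹ ∈ D.Nb →
      D.x k t * hv D g i v * (D.x k t)⁻¹ = s * q → (D.x k t)⁻¹ * q * D.x k t ∈ Cg p ι 1) :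
    False := by
  have hst := alg_stab D he hu hneg hg hw h1 hne h2 H
  -- the function of the limit argument
  let f : ℚ_[p] → GLm p ι := fun c =>
    e * (D.n k * (D.y k c * hv D g i v * (D.y k c)⁻¹) * (D.n k)⁻¹) * e⁻¹
  have hf : Continuous f := by
    have hy := y_cont D k
    have : Continuous fun c => (D.y k c)⁻¹ := hy.inv
    fun_prop
  have hfN : ∀ c : ℚ_[p], c ≠ 0 → f c ∈ D.N := by
    intro c hc
    set t : ℚ_[p]ˣ := (Units.mk0 c hc)⁻¹ with ht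
    have htc : ((t⁻¹ : ℚ_[p]ˣ) : ℚ_[p]) = c := by rw [ht, inv_inv]; rfl
    have h4 := hst t
    have hx := x_eq D k t
    rw [htc, nt_eq] at hx
    have hyN : e * D.y k c * e⁻¹ ∈ D.N := (NN_conj D he hu k c).2.2.2 hneg
    set y : GLm p ι := D.y k c with hy
    have hT : D.hk k t ∈ D.T := hc_mem_T D _ t
    have h5 : e * (D.hk k t * (D.n k * (y * hv D g i v * y⁻¹) * (D.n k)⁻¹) * (D.hk k t)⁻¹) * e⁻¹
        = (e * y * e⁻¹)⁻¹ * (e * (D.x k t * hv D g i v * (D.x k t)⁻¹) * e⁻¹) * (e * y * e⁻¹) := by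
      rw [hx]; group
    have h6 : e * (D.hk k t * (D.n k * (y * hv D g i v * y⁻¹) * (D.n k)⁻¹) * (D.hk k t)⁻¹) * e⁻¹
        ∈ D.N := by
      rw [h5]
      exact mul_mem (mul_mem (inv_mem hyN) h4) hyN
    have h7 := conjN_T D he (inv_mem hT) h6
    have h8 : (D.hk k t)⁻¹ * (D.hk k t * (D.n k * (y * hv D g i v * y⁻¹) * (D.n k)⁻¹) *
        (D.hk k t)⁻¹) * ((D.hk k t)⁻¹)⁻¹ = D.n k * (y * hv D g i v * y⁻¹) * (D.n k)⁻¹ := by group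
    rw [h8] at h7
    exact h7
  have hf0 : f 0 ∈ D.N := by
    have hcl : IsClosed {c : ℚ_[p] | f c ∈ D.N} := (N_closed D).preimage hf
    have hd : Dense ({0}ᶜ : Set ℚ_[p]) := dense_compl_singleton 0
    have hsub : ({0}ᶜ : Set ℚ_[p]) ⊆ {c : ℚ_[p] | f c ∈ D.N} := fun c hc => hfN c hc
    have h4 := hcl.closure_subset_iff.2 hsub
    rw [hd.closure_eq] at h4
    exact h4 (Set.mem_univ 0)
  have hrep : D.Rep (e * D.n k * g) (u * D.s k * w) :=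
    rep_mul D (rep_mul D hu (NNc_rep_n D k)) hw
  have hmem : e * D.n k * g ∈ D.NN := mul_mem (mul_mem he (n_mem_NN D k)) hg
  have hNb : (e * D.n k * g) * D.y i v * (e * D.n k * g)⁻¹ ∈ D.Nb :=
    (NN_conj D hmem hrep i v).2.2.1 h3
  have hEq : f 0 = (e * D.n k * g) * D.y i v * (e * D.n k * g)⁻¹ := by
    show e * (D.n k * (D.y k 0 * hv D g i v * (D.y k 0)⁻¹) * (D.n k)⁻¹) * e⁻¹ = _
    rw [y_zero]
    unfold hv
    group
  rw [hEq] at hf0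
  have h9 := N_inter_Nb D hf0 hNb
  have h10 : D.y i v = 1 := by
    have : D.y i v = (e * D.n k * g)⁻¹ * ((e * D.n k * g) * D.y i v * (e * D.n k * g)⁻¹) *
        (e * D.n k * g) := by group
    rw [this, h9]; group
  exact hv0 (y_inj D i h10)

end Pool.Agent.KS6_26.SR
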