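import Mathlib
import Pool.Agent.KS6_26.SR.Alg2

/-! The analytic part of the key step: a second level estimate for arbitrary root subgroups. -/

set_option autoImplicit false
set_option linter.unusedSectionVars false
set_option maxHeartbeats 1000000

noncomputable section

open Matrix Topology Filter

namespace Pool.Agent.KS6_26.SR

open Pool.Agent.Chev Pool.Agent.Chev.ChevData Pool.Agent.Helper911

section abstract_part

variable {p : ℕ} {G : Type*} [Group G] [TopologicalSpace G] {W : Type*} {F : Flag p G W}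
  {C : Type*} [NormedField C] [IsTopologicalGroup G] [T2Space G] [DecidableEq W]
  [IsUltrametricDist C] {X : CharData F C} {R : SubRep X}

/-- The second level, for any contracting element, with a translation by the opposite unipotent
group. -/
theorem level2_tr [Fact p.Prime] {rho : ℝ} (hd : Disc p C rho) (tie : TieHyp X)
    (hGU : GamU F) (hZ : ∀ s ∈ F.Z, ∀ t ∈ F.Z, s * t = t * s) {Om : Finset W} (hm : MinOm R Om)
    {u : W} (hOm : ∀ w, w ∈ Om ↔ wle F w u) (hop : IsOpen (cell F (Om.erase u)))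
    {Φ : G → C} (hΦR : Φ ∈ R.V) (hΦ : IsPhi X u Φ)
    (hS : ∃ S, IsClosed S ∧ LInv F S ∧ S ⊆ cell F Om ∧ ∀ x ∉ S, Φ x = 0)
    (z' : G) (h : ZOK F z') {w1 : W} (hw1 : w1 ∈ Om) (hne : w1 ≠ u)
    (hcw : ∀ w ∈ Om, w ≠ u → cwz X z' w ≤ cwz X z' w1) {r : ℝ} (hr : 0 < r) (hr1 : r < 1)
    (hrc : r * cwz X z' u < cwz X z' w1)
    (J : Finset G) (a : G → C) (hJ : ∀ h ∈ J, h ∈ F.Gam ∧ h ∈ F.Nb)
    (est : ∃ A : ℝ, ∀ l : ℕ, ∀ n ∈ F.P u, n ∈ F.Gam → ∀ y ∈ F.Q u, y ∈ F.Gam → ∀ b : G → G,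
      (∀ h ∈ J, b h ∈ F.B ∧ ∃ n' ∈ F.P u, n' ∈ F.Gam ∧ ∃ y' ∈ F.Q u, y' ∈ F.Gam ∧
        F.e u * n * y * (z' ^ l * h * (z' ^ l)⁻¹) = b h * F.e u * n' * y') →
      ‖∑ h ∈ J, a h * X.chi (b h)‖ ≤ A * r ^ l) {y0 : G} (hy0 : y0 ∈ F.Nb) :
    ∑ h ∈ J, a h * Φ (F.e w1 * y0 * h) = 0 := by
  by_contra hcon
  have hf := dphi_V2 (F := F.withZ z' h) (X := X.withZ z' h) (R := R.withZ z' h) hGU hr hr1 hΦR hΦ
    hS J a hJ est
  have hf' := V2_stab_Nb (F := F.withZ z' h) (X := X.withZ z' h) (R := R.withZ z' h) hGU hr hr1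
    hf hy0
  have hcpos : 0 < cwz X z' w1 :=
    X.norm_pos _ (F.Z_le (F.conj_Z w1 z' h.mem))
  have hL : Lev2 (X.withZ z' h) Om u (cwz X z' w1) r :=
    { open_Om := hm.isOpen
      open_er := hop
      hu := (hOm u).2 (wle_refl F u)
      top := fun w hw => (hOm w).1 hw
      c_pos := hcpos
      r_pos := hr
      r_lt_one := hr1
      rc := hrc
      cw_le := hcw }
  refine level2_false (R := R.withZ z' h) hd (tie.withZ z' h) hGU (fun t ht => hZ t ht z' h.mem)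
    (hm.withZ z' h) hL hf' hw1 hne rfl ?_
  intro h0
  apply hcon
  rw [← h0, tr_apply, Finset.sum_apply]
  exact Finset.sum_congr rfl fun x _ => rfl

end abstract_part

variable {p : ℕ} [Fact p.Prime] {I ι : Type} [Fintype I] [DecidableEq I] [Fintype ι]
  [DecidableEq ι] (D : ChevData p I ι) (hI : D.Integral)

/-- The root subgroup element as an element of `G`. -/
def hvG {g : GLm p ι} (hg : g ∈ D.NN) (i : I) (v : ℚ_[p]) : D.G :=
  ⟨hv D g i v, mul_mem (mul_mem (NN_le_G D hg) (y_mem_G D i v)) (inv_mem (NN_le_G D hg))⟩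

theorem hvG_inj {g : GLm p ι} (hg : g ∈ D.NN) (i : I) :
    Function.Injective (fun v : ℚ_[p]ˣ => hvG D hg i (v : ℚ_[p])) := by
  intro v w h
  have h1 : hv D g i (v : ℚ_[p]) = hv D g i (w : ℚ_[p]) := congrArg Subtype.val h
  have h0 : D.y i (v : ℚ_[p]) = D.y i (w : ℚ_[p]) := by
    have h2 : g⁻¹ * hv D g i (v : ℚ_[p]) * g = g⁻¹ * hv D g i (w : ℚ_[p]) * g := by rw [h1]
    have h3 : ∀ c : ℚ_[p], g⁻¹ * hv D g i c * g = D.y i c := by
      intro c; unfold hv; group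
    rwa [h3, h3] at h2
  have h2 : D.y i ((v : ℚ_[p]) + -(w : ℚ_[p])) = 1 := by
    rw [y_add, y_neg, h0, mul_inv_cancel]
  have h3 := y_inj D i h2
  exact Units.ext (by linear_combination h3)

variable {C : Type*} [NormedField C]

variable [NormedAlgebra ℚ_[p] C] [CompleteSpace C] [IsUltrametricDist C]

/-- The second level estimate for a root subgroup. -/
theorem ana_sum {rho : ℝ} (hd : Disc p C rho) (χ : (I → ℚ_[p]ˣ) →* Cˣ) (hχ : Continuous χ)
    (tie : TieHyp (chevChar D hI χ hχ)) (R : SubRep (chevChar D hI χ hχ)) (u : D.W)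
    (Om : Finset D.W) (hm : MinOm R Om) (hOm : ∀ w, w ∈ Om ↔ wle (chevFlag D hI) w u)
    (hslope : ∀ z', ZOK (chevFlag D hI) z' → ∀ w ∈ Om, w ≠ u →
      cwz (chevChar D hI χ hχ) z' w < cwz (chevChar D hI χ hχ) z' u)
    (hop : IsOpen (cell (chevFlag D hI) (Om.erase u))) (Φ : D.G → C) (hΦR : Φ ∈ R.V)
    (hΦ : IsPhi (chevChar D hI χ hχ) u Φ)
    (hS : ∃ S, IsClosed S ∧ LInv (chevFlag D hI) S ∧ S ⊆ cell (chevFlag D hI) Om ∧
      ∀ x ∉ S, Φ x = 0)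
    (k : I) (hneg : D.Pos (-(u.1 (D.A k)))) {g : GLm p ι} (hg : g ∈ D.NN) (hgC : g ∈ Cg p ι 0)
    {w : (I → ℤ) ≃ₗ[ℤ] (I → ℤ)} (hw : D.Rep g w) {i : I} (h1w : D.Pos (w (D.A i))) :
    ∃ I0 M0 : ℕ, ∀ (J : Finset ℚ_[p]ˣ) (a : ℚ_[p]ˣ → C),
      (∀ v ∈ J, ‖(v : ℚ_[p])‖ ≤ (p : ℝ) ^ (-(M0 : ℤ))) →
      (∀ i ≤ I0, ∑ v ∈ J, a v * (algebraMap ℚ_[p] C (v : ℚ_[p])) ^ i = 0) →
      ∀ y0 ∈ (chevFlag D hI).Nb,
        ∑ v ∈ J, a v * Φ (eW D hI (wsk D u k) * y0 * hvG D hg i (v : ℚ_[p])) = 0 := by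
  set w1 := wsk D u k with hw1def
  have hw1u : w1 ≠ u := wsk_ne D u k
  have hw1 : w1 ∈ Om := (hOm w1).2 (chev_swap_wle D hI u k hneg)
  obtain ⟨ν, hν⟩ := cwz_chev D hI χ hχ
  let em : D.W ↪ ((I → ℤ) ≃ₗ[ℤ] (I → ℤ)) := ⟨Subtype.val, Subtype.val_injective⟩
  obtain ⟨l, hl, hlE⟩ := near_wall_G D ν u.2 k ((Om.erase u).map em) (by
    intro w hw
    obtain ⟨w', _, rfl⟩ := Finset.mem_map.1 hw
    exact w'.2) (by
    intro l hl w hw
    obtain ⟨w', hw', rfl⟩ := Finset.mem_map.1 hw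
    rw [Finset.mem_erase] at hw'
    have := hslope _ (zG_ok D hI l hl) w' hw'.2 hw'.1
    rw [hν, hν] at this
    exact Real.exp_lt_exp.1 this)
  have hpR : (1 : ℝ) < p := by exact_mod_cast (Fact.out : p.Prime).one_lt
  set sk : ℤ := gsph l (w (D.A i)) with hsk
  have hsk1 : sk ≤ -1 := expo_aux D l hl h1w
  set q : ℝ := (p : ℝ) ^ sk with hq
  have hq0 : 0 < q := by positivity
  have hq1 : q < 1 := by
    rw [hq]
    exact zpow_lt_one_of_neg₀ hpR (by omega)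
  have hpos : ∀ w, 0 < cwz (chevChar D hI χ hχ) (zG D l) w := by
    intro w; rw [hν]; exact Real.exp_pos _
  obtain ⟨I0, hI0⟩ : ∃ I0 : ℕ, q ^ (I0 + 1) * cwz (chevChar D hI χ hχ) (zG D l) u
      < cwz (chevChar D hI χ hχ) (zG D l) w1 := by
    have h1 : 0 < cwz (chevChar D hI χ hχ) (zG D l) w1 / cwz (chevChar D hI χ hχ) (zG D l) u :=
      div_pos (hpos _) (hpos _)
    obtain ⟨I0, hI0⟩ := exists_pow_lt_of_lt_one h1 hq1
    refine ⟨I0, ?_⟩
    rw [lt_div_iff₀ (hpos _)] at hI0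
    refine lt_of_le_of_lt ?_ hI0
    apply mul_le_mul_of_nonneg_right _ (hpos _).le
    exact pow_le_pow_of_le_one hq0.le hq1.le (Nat.le_succ I0)
  obtain ⟨M0, hM0, hest⟩ := chev_est D hI χ hχ (mul_mem (eW_Cg D hI u) hgC) i I0
  refine ⟨I0, M0, ?_⟩
  intro J a hJ hmom y0 hy0
  obtain ⟨A, hA⟩ := hest J a hJ hmom
  let emb : ℚ_[p]ˣ ↪ D.G := ⟨fun v => hvG D hg i (v : ℚ_[p]), hvG_inj D hg i⟩
  let a' : D.G → C := Function.extend emb a 0
  have ha' : ∀ v : ℚ_[p]ˣ, a' (emb v) = a v := fun v => emb.injective.extend_apply a 0 v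
  have hembN : ∀ v, emb v ∈ (chevFlag D hI).Nb := fun v => hv_Nb D hg hw h1w _
  have hfin := level2_tr (R := R) hd tie (chev_gamU D hI)
    (fun s hs t ht => T_comm D s hs t ht) hm hOm hop hΦR hΦ hS
    (zG D l) (zG_ok D hI l hl) hw1 hw1u (by
      intro w hw hwu
      rw [hν, hν]
      exact Real.exp_le_exp.2 (hlE w.1
        (Finset.mem_map.2 ⟨w, Finset.mem_erase.2 ⟨hwu, hw⟩, rfl⟩)))
    (r := q ^ (I0 + 1)) (by positivity) (pow_lt_one₀ hq0.le hq1 (Nat.succ_ne_zero I0)) hI0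
    (J.map emb) a' (by
      intro h hh
      obtain ⟨v, hvJ, rfl⟩ := Finset.mem_map.1 hh
      refine ⟨?_, hembN v⟩
      show hv D g i (v : ℚ_[p]) ∈ Cg p ι 1
      refine Cg_conj hgC (y_Cg D hI 1 i _ ((hJ v hvJ).trans (zpow_le_zpow_right₀ hpR.le ?_)))
      have : ((1 : ℕ) : ℤ) ≤ (M0 : ℤ) := by exact_mod_cast hM0
      omega) ⟨A, ?_⟩ hy0
  · rw [Finset.sum_map] at hfin
    refine Eq.trans (Finset.sum_congr rfl fun v _ => ?_) hfin
    rw [ha']
    rfl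
  · intro m n0 hn0 hn0G y hy hyG b hb
    rw [Finset.sum_map]
    set e : GLm p ι := (eW D hI u : GLm p ι) with he
    set g1 : GLm p ι := e * (n0 : GLm p ι) * (y : GLm p ι) * e⁻¹ with hg1def
    have hg1 : g1 ∈ D.Nb := by
      have : g1 = (e * (n0 : GLm p ι) * e⁻¹) * (e * (y : GLm p ι) * e⁻¹) := by rw [hg1def]; group
      rw [this]
      exact mul_mem hn0.2 hy.2
    have hg2 : g1 ∈ Cg p ι 0 :=
      mul_mem (mul_mem (mul_mem (eW_Cg D hI u) (Cg_le hn0G)) (Cg_le hyG))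
        (inv_mem (eW_Cg D hI u))
    set t : ℚ_[p] := (((((pu p) ^ m) ^ sk)⁻¹ : ℚ_[p]ˣ) : ℚ_[p]) with ht
    have htn : ‖t‖ = q ^ m := by
      rw [ht, Units.val_inv_eq_inv_val, norm_inv, ← _root_.zpow_natCast, ← _root_.zpow_mul,
        norm_pu_zpow, hq, ← _root_.zpow_neg, neg_neg, ← _root_.zpow_natCast, ← _root_.zpow_mul,
        mul_comm]
    have h1 := hA t (by rw [htn]; exact pow_le_one₀ hq0.le hq1.le) g1 hg1 hg2
      (fun v => tauB D (b (emb v) : GLm p ι)) (by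
      intro v hv
      obtain ⟨hbB, n', hn', hn'G, y', hy', hy'G, hEq⟩ := hb (emb v) (Finset.mem_map_of_mem _ hv)
      obtain ⟨nb, hnb, hbe⟩ := tauB_spec D (b := (b (emb v) : GLm p ι)) hbB
      refine ⟨nb, hnb, e * (n' : GLm p ι) * (y' : GLm p ι) * e⁻¹, ?_, ?_⟩
      · have : e * (n' : GLm p ι) * (y' : GLm p ι) * e⁻¹
          = (e * (n' : GLm p ι) * e⁻¹) * (e * (y' : GLm p ι) * e⁻¹) := by group
        rw [this]
        exact mul_mem hn'.2 hy'.2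
      · have h2 : e * (n0 : GLm p ι) * (y : GLm p ι) * (D.hc l (pu p) ^ m *
            Pool.Agent.KS6_26.SR.hv D g i (v : ℚ_[p]) * (D.hc l (pu p) ^ m)⁻¹)
              = (b (emb v) : GLm p ι) * e * (n' : GLm p ι) * (y' : GLm p ι) :=
          congrArg Subtype.val hEq
        rw [hc_pow] at h2
        unfold Pool.Agent.KS6_26.SR.hv at h2
        rw [hv_conj D hw] at h2
        rw [← hbe]
        calc g1 * (e * g * D.y i (t * (v : ℚ_[p])) * (e * g)⁻¹)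
            = (e * (n0 : GLm p ι) * (y : GLm p ι) * (g * D.y i (t * (v : ℚ_[p])) * g⁻¹)) * e⁻¹ := by
              rw [hg1def]; group
          _ = ((b (emb v) : GLm p ι) * e * (n' : GLm p ι) * (y' : GLm p ι)) * e⁻¹ := by
              rw [← h2]
          _ = _ := by group)
    refine le_trans (le_of_eq ?_) (h1.trans (le_of_eq ?_))
    · congr 1
      refine Finset.sum_congr rfl fun v _ => ?_
      rw [ha']
      rfl
    · rw [htn, ← pow_mul, ← pow_mul, mul_comm m]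

end Pool.Agent.KS6_26.SR
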