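import Mathlib
import Pool.Agent.KS6_26.SR.Ana

/-! The key step: the condition on the top element `u`, and the main theorem. -/

set_option autoImplicit false
set_option linter.unusedSectionVars false
set_option maxHeartbeats 1000000

noncomputable section

open Matrix Topology Filter

namespace Pool.Agent.KS6_26.SR

open Pool.Agent.Chev Pool.Agent.Chev.ChevData Pool.Agent.Helper911

section lagrange

/-- the unit `p^k` -/
def ppU (p : ℕ) [Fact p.Prime] (k : ℕ) : ℚ_[p]ˣ :=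
  Units.mk0 ((p : ℚ_[p]) ^ k) (pow_ne_zero _ (Nat.cast_ne_zero.2 (Fact.out : p.Prime).ne_zero))

theorem ppU_norm (p : ℕ) [Fact p.Prime] (k : ℕ) :
    ‖((ppU p k : ℚ_[p]ˣ) : ℚ_[p])‖ = (p : ℝ) ^ (-(k : ℤ)) := by
  have : ((ppU p k : ℚ_[p]ˣ) : ℚ_[p]) = (p : ℚ_[p]) ^ k := rfl
  rw [this, Padic.norm_p_pow]

theorem ppU_inj (p : ℕ) [Fact p.Prime] : Function.Injective (ppU p) := by
  intro a b h
  have h1 : (p : ℚ_[p]) ^ a = (p : ℚ_[p]) ^ b := congrArg Units.val h
  have h2 := congrArg norm h1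
  rw [Padic.norm_p_pow, Padic.norm_p_pow] at h2
  have hp1 : (1 : ℝ) < p := by exact_mod_cast (Fact.out : p.Prime).one_lt
  have h3 := zpow_right_injective₀ (by linarith) hp1.ne' h2
  omega

/-- A function with values `0` and `1`, continuous and equal to `1` at `0`, which is killed by all
measures with vanishing moments, is `1` near `0`. -/
theorem two_valued {p : ℕ} [Fact p.Prime] {C : Type*} [NormedField C] [NormedAlgebra ℚ_[p] C]
    {f : ℚ_[p] → C} (hf : Continuous f) (h0 : f 0 = 1) (h01 : ∀ v, f v = 0 ∨ f v = 1)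
    (I0 M0 : ℕ)
    (hsum : ∀ (J : Finset ℚ_[p]ˣ) (a : ℚ_[p]ˣ → C),
      (∀ v ∈ J, ‖(v : ℚ_[p])‖ ≤ (p : ℝ) ^ (-(M0 : ℤ))) →
      (∀ i ≤ I0, ∑ v ∈ J, a v * (algebraMap ℚ_[p] C (v : ℚ_[p])) ^ i = 0) →
      ∑ v ∈ J, a v * f (v : ℚ_[p]) = 0) (v : ℚ_[p]ˣ)
    (hv : ‖(v : ℚ_[p])‖ ≤ (p : ℝ) ^ (-(M0 : ℤ))) : f (v : ℚ_[p]) = 1 := by
  classical
  have hp1 : (1 : ℝ) < p := by exact_mod_cast (Fact.out : p.Prime).one_lt
  obtain ⟨δ, hδ, hcl⟩ := Metric.continuous_iff.1 hf 0 1 one_pos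
  have hsmall : ∀ w : ℚ_[p], ‖w‖ < δ → f w = 1 := by
    intro w hw
    have h1 := hcl w (by rwa [dist_zero_right])
    rw [h0, dist_eq_norm] at h1
    rcases h01 w with h | h
    · exfalso
      rw [h, zero_sub, norm_neg, norm_one] at h1
      exact lt_irrefl _ h1
    · exact h
  obtain ⟨M1, hM1⟩ : ∃ M1 : ℕ, (p : ℝ) ^ (-(M1 : ℤ)) < δ := by
    obtain ⟨M1, h⟩ := pow_unbounded_of_one_lt δ⁻¹ hp1
    refine ⟨M1, ?_⟩
    rw [_root_.zpow_neg, _root_.zpow_natCast]
    exact inv_lt_of_inv_lt₀ hδ h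
  set ι := algebraMap ℚ_[p] C with hι
  have hιinj : Function.Injective ι := (algebraMap ℚ_[p] C).injective
  let vv : Fin (I0 + 1) → ℚ_[p]ˣ := fun k => ppU p (M0 + M1 + k)
  have hvvinj : Function.Injective vv := fun a b h => Fin.ext (by
    have := ppU_inj p h
    omega)
  have hvvn : ∀ k, ‖((vv k : ℚ_[p]ˣ) : ℚ_[p])‖ ≤ (p : ℝ) ^ (-((M0 + M1 : ℕ) : ℤ)) := by
    intro k
    show ‖((ppU p (M0 + M1 + k) : ℚ_[p]ˣ) : ℚ_[p])‖ ≤ _
    rw [ppU_norm]
    exact zpow_le_zpow_right₀ hp1.le (by push_cast; omega)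
  let nd : Fin (I0 + 1) → C := fun k => ι (vv k)
  have hndinj : Function.Injective nd := fun a b h => hvvinj (Units.ext (hιinj h))
  let Lk : Fin (I0 + 1) → C := fun k => (Lagrange.basis Finset.univ nd k).eval (ι v)
  let J : Finset ℚ_[p]ˣ := insert v (Finset.univ.image vv)
  let a : ℚ_[p]ˣ → C := fun w => (if w = v then 1 else 0) - ∑ k, if w = vv k then Lk k else 0
  have hs : ∀ F : ℚ_[p]ˣ → C, ∑ w ∈ J, a w * F w = F v - ∑ k, Lk k * F (vv k) := by
    intro F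
    simp only [a, sub_mul, Finset.sum_sub_distrib, Finset.sum_mul]
    congr 1
    · rw [Finset.sum_eq_single v]
      · simp
      · intro b _ hb
        simp [hb]
      · intro h
        exact absurd (Finset.mem_insert_self _ _) h
    · rw [Finset.sum_comm]
      refine Finset.sum_congr rfl fun k _ => ?_
      rw [Finset.sum_eq_single (vv k)]
      · simp
      · intro b _ hb
        simp [hb]
      · intro h
        exact absurd (Finset.mem_insert_of_mem (Finset.mem_image_of_mem _ (Finset.mem_univ _))) h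
  have hint : ∀ i ≤ I0, (ι v) ^ i = ∑ k, Lk k * (nd k) ^ i := by
    intro i hi
    have hq := Lagrange.eq_interpolate (s := (Finset.univ : Finset (Fin (I0 + 1)))) (v := nd)
      (f := (Polynomial.X ^ i : Polynomial C)) (hndinj.injOn) (by
        rw [Polynomial.degree_X_pow, Finset.card_univ, Fintype.card_fin]
        exact_mod_cast Nat.lt_succ_of_le hi)
    have hq2 := congrArg (Polynomial.eval (ι v)) hq
    simp only [Lagrange.interpolate_apply, Polynomial.eval_finsetSum, Polynomial.eval_mul,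
      Polynomial.eval_C, Polynomial.eval_pow, Polynomial.eval_X] at hq2
    rw [hq2]
    exact Finset.sum_congr rfl fun k _ => mul_comm _ _
  have h := hsum J a ?_ ?_
  · rw [hs (fun w => f (w : ℚ_[p]))] at h
    have h1 : ∑ k, Lk k * f ((vv k : ℚ_[p]ˣ) : ℚ_[p]) = 1 := by
      have h2 := hint 0 (Nat.zero_le _)
      simp only [pow_zero, mul_one] at h2
      rw [h2]
      refine Finset.sum_congr rfl fun k _ => ?_
      rw [hsmall, mul_one]
      refine (hvvn k).trans_lt (lt_of_le_of_lt ?_ hM1)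
      exact zpow_le_zpow_right₀ hp1.le (by push_cast; omega)
    rw [h1] at h
    exact sub_eq_zero.1 h
  · intro w hw
    rcases Finset.mem_insert.1 hw with rfl | hw
    · exact hv
    · obtain ⟨k, -, rfl⟩ := Finset.mem_image.1 hw
      refine (hvvn k).trans ?_
      exact zpow_le_zpow_right₀ hp1.le (by push_cast; omega)
  · intro i hi
    rw [hs (fun w => (algebraMap ℚ_[p] C (w : ℚ_[p])) ^ i), sub_eq_zero]
    exact hint i hi

end lagrange

variable {p : ℕ} [Fact p.Prime] {I ι : Type} [Fintype I] [DecidableEq I] [Fintype ι]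
  [DecidableEq ι] (D : ChevData p I ι) (hI : D.Integral)

variable {C : Type*} [NormedField C]

/-- The simple root subgroup element as an element of `G`. -/
def xG (k : I) (t : ℚ_[p]) : D.G := ⟨D.x k t, x_mem_G D k t⟩

/-- The values of `Φ` on the elements in question. -/
theorem phi_val (χ : (I → ℚ_[p]ˣ) →* Cˣ) (hχ : Continuous χ) {u : D.W} {Φ : D.G → C}
    (hΦ : IsPhi (chevChar D hI χ hχ) u Φ) {k : I} (hneg : D.Pos (-(u.1 (D.A k)))) (h : D.G)
    (t : ℚ_[p]) {s q : GLm p ι}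
    (hs : (eW D hI u : GLm p ι) * s * (eW D hI u : GLm p ι)⁻¹ ∈ D.N) (hq : q ∈ D.Nb)
    (hq' : (eW D hI u : GLm p ι) * q * (eW D hI u : GLm p ι)⁻¹ ∈ D.Nb)
    (hX : D.x k t * (h : GLm p ι) * (D.x k t)⁻¹ = s * q) :
    ((D.x k t)⁻¹ * q * D.x k t ∈ Cg p ι 1 → Φ (eW D hI u * xG D k t * h) = 1) ∧
    ((D.x k t)⁻¹ * q * D.x k t ∉ Cg p ι 1 → Φ (eW D hI u * xG D k t * h) = 0) := by
  set e : GLm p ι := (eW D hI u : GLm p ι) with he
  obtain ⟨hY1, hY2⟩ := Q_conj D (eW_NN D hI u) (eW_rep D hI u) hneg hq hq' t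
  set Y : GLm p ι := (D.x k t)⁻¹ * q * D.x k t with hYdef
  let YG : D.G := ⟨Y, Nb_le_G D hY1⟩
  have hYQ : YG ∈ (chevFlag D hI).Q u := ⟨hY1, hY2⟩
  let b : D.G := ⟨e * s * e⁻¹, N_le_G D hs⟩
  have hbN : b ∈ sg D D.N := hs
  have hbB : b ∈ (chevFlag D hI).B := N_le_B D hs
  have hEq : eW D hI u * xG D k t * h = b * eW D hI u * xG D k t * YG := by
    apply Subtype.ext
    show e * D.x k t * (h : GLm p ι) = e * s * e⁻¹ * e * D.x k t * Y
    have h1 : D.x k t * (h : GLm p ι) = s * q * D.x k t := by rw [← hX]; group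
    rw [mul_assoc, h1, hYdef]
    group
  have hxP : xG D k t ∈ (chevFlag D hI).P u := xk_mem_P D hI u k hneg t
  refine ⟨fun hc => ?_, fun hc => ?_⟩
  · rw [hEq]
    have h2 := hΦ.1 b hbB (xG D k t) hxP YG hYQ hc
    refine h2.trans ?_
    exact chiG_N D χ hbN
  · apply hΦ.2
    rintro ⟨b', hb', n', hn', y', hy', hyG, hEq'⟩
    rw [hEq] at hEq'
    have h3 : eW D hI u * xG D k t * YG = (b⁻¹ * b') * eW D hI u * n' * y' := by
      have h4 : eW D hI u * xG D k t * YG = b⁻¹ * (b * eW D hI u * xG D k t * YG) := by group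
      rw [h4, hEq']
      show b⁻¹ * (b' * eW D hI u * n' * y') = _
      group
    have h5 := (chevFlag D hI).chart_inj u (b⁻¹ * b') (mul_mem (inv_mem hbB) hb') (xG D k t) hxP
      YG hYQ n' hn' y' hy' h3
    apply hc
    have h6 : YG = y' := h5.2
    have h7 : Y = (y' : GLm p ι) := congrArg Subtype.val h6
    show Y ∈ Cg p ι 1
    rw [h7]
    exact hyG

variable [NormedAlgebra ℚ_[p] C] [CompleteSpace C] [IsUltrametricDist C]

/-- The condition on the top element. -/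
theorem key_H {rho : ℝ} (hd : Disc p C rho) (χ : (I → ℚ_[p]ˣ) →* Cˣ) (hχ : Continuous χ)
    (tie : TieHyp (chevChar D hI χ hχ)) (R : SubRep (chevChar D hI χ hχ)) (u : D.W)
    (Om : Finset D.W) (hm : MinOm R Om) (hOm : ∀ w, w ∈ Om ↔ wle (chevFlag D hI) w u)
    (hslope : ∀ z', ZOK (chevFlag D hI) z' → ∀ w ∈ Om, w ≠ u →
      cwz (chevChar D hI χ hχ) z' w < cwz (chevChar D hI χ hχ) z' u)
    (hop : IsOpen (cell (chevFlag D hI) (Om.erase u))) (Φ : D.G → C) (hΦR : Φ ∈ R.V)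
    (hΦ : IsPhi (chevChar D hI χ hχ) u Φ)
    (hS : ∃ S, IsClosed S ∧ LInv (chevFlag D hI) S ∧ S ⊆ cell (chevFlag D hI) Om ∧
      ∀ x ∉ S, Φ x = 0)
    (k : I) (hneg : D.Pos (-(u.1 (D.A k)))) (x : (I → ℤ) ≃ₗ[ℤ] (I → ℤ)) (hx : x ∈ D.W) (i : I)
    (hx1 : D.Pos (x (D.A i))) (hx2 : D.Pos (u.1 (x (D.A i)))) :
    D.Pos (u.1 (D.s k (x (D.A i)))) := by
  have hsx : D.s k * x ∈ D.W := mul_mem (s_mem_W D k) hx
  rcases weyl_sign D (mul_mem u.2 hsx) i with h | h2
  · exact h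
  exfalso
  have hne0 : x (D.A i) ≠ D.A k := by
    intro h
    rw [h] at hx2
    exact pos_contra D hx2 hneg
  have h1 : D.Pos ((D.s k * x) (D.A i)) := weyl_refl_pos D hx k i hx1 hne0
  have hss : ∀ μ, D.s k (D.s k μ) = μ := fun μ => (D.s k).left_inv μ
  have hne : (D.s k * x) (D.A i) ≠ D.A k := by
    intro h
    have h3 : x (D.A i) = -(D.A k) := by
      rw [← hss (x (D.A i))]
      show D.s k ((D.s k * x) (D.A i)) = _
      rw [h, s_A]
    rw [h3] at hx1
    exact pos_contra D (pos_A D k) hx1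
  obtain ⟨g, hg, hgC, hrep⟩ := W_rep_Cg D hI hsx
  obtain ⟨I0, M0, hsum⟩ := ana_sum D hI hd χ hχ tie R u Om hm hOm hslope hop Φ hΦR hΦ hS k hneg
    hg hgC hrep h1
  have heNN := eW_NN D hI u
  have heR := eW_rep D hI u
  have hsec := R.sec Φ hΦR
  -- the function `v ↦ Φ (e_u x_k(t) h_v)`
  have hval : ∀ t v : ℚ_[p],
      Φ (eW D hI u * xG D k t * hvG D hg i v) = 0 ∨ Φ (eW D hI u * xG D k t * hvG D hg i v) = 1 := by
    intro t v
    obtain ⟨s, hs, hsN, q, hq, hqN, hsq⟩ := Nb_decomp D heNN _ (conj_hv_Nb D hg hrep h1 hne v t)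
    have h3 := phi_val D hI χ hχ hΦ hneg (hvG D hg i v) t hsN hq hqN hsq
    by_cases hc : (D.x k t)⁻¹ * q * D.x k t ∈ Cg p ι 1
    · exact Or.inr (h3.1 hc)
    · exact Or.inl (h3.2 hc)
  have hmain : ∀ (t v : ℚ_[p]ˣ), ‖(v : ℚ_[p])‖ ≤ (p : ℝ) ^ (-(M0 : ℤ)) →
      Φ (eW D hI u * xG D k (t : ℚ_[p]) * hvG D hg i (v : ℚ_[p])) = 1 := by
    intro t v hv
    refine two_valued (f := fun v => Φ (eW D hI u * xG D k (t : ℚ_[p]) * hvG D hg i v)) ?_ ?_
      (hval (t : ℚ_[p])) I0 M0 ?_ v hv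
    · refine hsec.1.comp (continuous_const.mul (Continuous.subtype_mk ?_ _))
      have hy := y_cont D i
      show Continuous fun v => g * D.y i v * g⁻¹
      fun_prop
    · have h3 := hΦ.1 1 (one_mem _) (xG D k (t : ℚ_[p])) (xk_mem_P D hI u k hneg _) 1 (one_mem _)
        (one_mem _)
      rw [mul_one, one_mul] at h3
      have h4 : hvG D hg i (0 : ℚ_[p]) = 1 := by
        apply Subtype.ext
        show g * D.y i 0 * g⁻¹ = 1
        rw [y_zero]; group
      show Φ (eW D hI u * xG D k (t : ℚ_[p]) * hvG D hg i 0) = 1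
      rw [h4, mul_one]
      exact h3.trans (chiG_N D χ (one_mem _))
    · intro J a hJ hmom
      have h3 := hsum J a hJ hmom (yG D k ((t⁻¹ : ℚ_[p]ˣ) : ℚ_[p])) (y_mem_Nb D k _)
      obtain ⟨τ0, hsw⟩ := swap_val D heNN (eW_NN D hI (wsk D u k)) heR k
        (eW_rep D hI (wsk D u k)) hneg
      obtain ⟨m, hm', hEq⟩ := hsw t⁻¹
      rw [inv_inv] at hEq
      set bb : GLm p ι := D.h τ0 * D.h (act u.1 (fun l => (t⁻¹) ^ (Pi.single k 1 : I → ℤ) l)) * m
        with hbb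
      have hbB : bb ∈ D.B :=
        mul_mem (mul_mem (T_le_B D ⟨_, rfl⟩) (T_le_B D ⟨_, rfl⟩)) (N_le_B D hm')
      let bG : D.G := ⟨bb, B_le_G D hbB⟩
      have hbG : bG ∈ (chevFlag D hI).B := hbB
      have h4 : ∀ v : ℚ_[p], Φ (eW D hI (wsk D u k) * yG D k ((t⁻¹ : ℚ_[p]ˣ) : ℚ_[p]) *
          hvG D hg i v) = (chevChar D hI χ hχ).chi bG *
            Φ (eW D hI u * xG D k (t : ℚ_[p]) * hvG D hg i v) := by
        intro v
        rw [← hsec.2 bG hbG]
        congr 1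
        apply Subtype.ext
        show (eW D hI (wsk D u k) : GLm p ι) * D.y k ((t⁻¹ : ℚ_[p]ˣ) : ℚ_[p]) *
          Pool.Agent.KS6_26.SR.hv D g i v = bb * ((eW D hI u : GLm p ι) * D.x k (t : ℚ_[p]) *
            Pool.Agent.KS6_26.SR.hv D g i v)
        rw [hEq, hbb]
        group
      have h5 : ∑ v ∈ J, a v * Φ (eW D hI (wsk D u k) * yG D k ((t⁻¹ : ℚ_[p]ˣ) : ℚ_[p]) *
          hvG D hg i (v : ℚ_[p])) = (chevChar D hI χ hχ).chi bG *
          ∑ v ∈ J, a v * Φ (eW D hI u * xG D k (t : ℚ_[p]) * hvG D hg i (v : ℚ_[p])) := by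
        rw [Finset.mul_sum]
        refine Finset.sum_congr rfl fun v _ => ?_
        rw [h4]; ring
      rw [h5] at h3
      exact (mul_eq_zero.1 h3).resolve_left (Units.ne_zero _)
  -- the contradiction
  refine alg_false D heNN heR hneg hg hrep h1 hne h2 (v := (ppU p M0 : ℚ_[p])) ?_
    (Units.ne_zero _) ?_
  · show D.Pos (u.1 (D.s k (D.s k (x (D.A i)))))
    rw [hss]
    exact hx2
  · intro t s q hs hq hq' hX
    by_contra hc
    have h3 := (phi_val D hI χ hχ hΦ hneg (hvG D hg i (ppU p M0 : ℚ_[p])) (t : ℚ_[p]) hs hq hq'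
      hX).2 hc
    have h4 := hmain t (ppU p M0) (ppU_norm p M0).le
    rw [h3] at h4
    exact zero_ne_one h4

/-- If the principal series of a continuous character is reducible, then the character is
`x ↦ x^(-m)` on some simple coroot. -/
theorem chev_simple {rho : ℝ} (hd : Disc p C rho) (χ : (I → ℚ_[p]ˣ) →* Cˣ) (hχ : Continuous χ)
    (R : SubRep (chevChar D hI χ hχ)) (hne : R.V ≠ ⊥)
    (hnt : ∃ f, IsSec (chevChar D hI χ hχ) f ∧ f ∉ R.V) :
    ∃ (a : I) (m : ℕ), ∀ x : ℚ_[p]ˣ, ((χ (coch (Pi.single a 1) x) : Cˣ) : C)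
        = ((algebraMap ℚ_[p] C (x : ℚ_[p])) ^ m)⁻¹ := by
  by_cases hs : ∀ k : I, ∃ a : ℚ_[p]ˣ, χ (fun l => a ^ (Pi.single k 1 : I → ℤ) l) ≠ 1
  · have tie := chev_tie D hI χ hχ hs
    obtain ⟨u, Om, hm, hOm, hslope, hop, Φ, hΦR, hΦ, hS⟩ := mainB hd tie R hne
    by_cases hP : ∀ x ∈ (chevFlag D hI).P u, x = 1
    · obtain ⟨f, hf, hfV⟩ := hnt
      exact absurd (all_of_phi R hΦR hΦ hP f hf) hfV
    · push Not at hP
      obtain ⟨x, hx, hx1⟩ := hP
      have hJ := exists_descent_G D (eW_NN D hI u) (eW_rep D hI u) hx.1 hx.2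
        (fun h => hx1 (Subtype.ext h))
      obtain ⟨k, a, hneg, hka⟩ := exists_simple D u.2 hJ
        (key_H D hI hd χ hχ tie R u Om hm hOm hslope hop Φ hΦR hΦ hS)
      obtain ⟨m, hm'⟩ := chev_descent D hI hd χ hχ tie R u Om hm hOm hslope hop Φ hΦR hΦ hS k hneg
      refine ⟨a, m, fun x => ?_⟩
      have h1 : (wsk D u k).1 (D.A k) = D.A a := by
        show u.1 (D.s k (D.A k)) = _
        rw [s_A, map_neg, hka, neg_neg]
      have hinv : ∀ μ : I → ℤ, (u.1⁻¹ μ) k = - μ a := by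
        intro μ
        have h2 := coroot_simple D (wsk D u k).2 h1 μ
        have h3 : (wsk D u k).1⁻¹ μ = D.s k (u.1⁻¹ μ) := by
          have h4 : (wsk D u k).1⁻¹ = (D.s k)⁻¹ * u.1⁻¹ := _root_.mul_inv_rev _ _
          rw [h4, s_inv']
          rfl
        rw [h3, s_apply] at h2
        simp only [Pi.sub_apply, Pi.smul_apply, D.A_diag, smul_eq_mul] at h2
        omega
      have h5 : coch (Pi.single a 1) x
          = (coch (fun m => (u.1⁻¹ (Pi.single m 1)) k) x)⁻¹ := by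
        funext l
        rw [coch_apply, Pi.inv_apply, coch_apply]
        simp only [hinv]
        rw [_root_.zpow_neg, inv_inv]
        congr 1
        rw [Pi.single_apply, Pi.single_apply]
        simp only [eq_comm]
      rw [h5, map_inv, Units.val_inv_eq_inv_val, hm' x]
  · push Not at hs
    obtain ⟨k, hx⟩ := hs
    refine ⟨k, 0, fun x => ?_⟩
    rw [coch_apply, hx x]
    simp

end Pool.Agent.KS6_26.SR
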