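import Mathlib
import Pool.Agent.KS6_26.SR.Key
import Pool.Graph.R_pool_sql_team_seeded_620a6dc7.Helper911_Chev.Bridge2

/-! The theorem on simple coroots for the data of the statement. -/

set_option autoImplicit false
set_option linter.unusedSectionVars false
set_option maxHeartbeats 1000000

noncomputable section

open Matrix Topology Filter

namespace Pool.Agent.KS6_26.SR

open Pool.Agent.Chev Pool.Agent.Chev.ChevData Pool.Agent.Helper911 Pool.Agent.SplitGroup

section one

variable {p : ℕ} [Fact p.Prime] {I ι : Type} [Fintype I] [DecidableEq I] [Fintype ι]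
  [DecidableEq ι]

variable {C : Type*} [NormedField C] [NormedAlgebra ℚ_[p] C] [CompleteSpace C]
  [IsUltrametricDist C]

/-- The main theorem without the integrality condition. -/
theorem simple_D {rho : ℝ} (hd : Disc p C rho) (D : ChevData p I ι) (χ : (I → ℚ_[p]ˣ) →* Cˣ)
    (hχ : Continuous χ) (U : SubD D χ) (hne : U.V ≠ ⊥) (hnt : ∃ f, SecD D χ f ∧ f ∉ U.V) :
    ∃ (k : I) (m : ℕ), ∀ x : ℚ_[p]ˣ, ((χ (coch (Pi.single k 1) x) : Cˣ) : C)
        = ((algebraMap ℚ_[p] C (x : ℚ_[p])) ^ m)⁻¹ := by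
  obtain ⟨P, hP, hI⟩ := exists_integral D
  set U' := transSub D P hP χ U with hU'
  have hne' : U'.V ≠ ⊥ := by
    intro h
    apply hne
    rw [Submodule.eq_bot_iff] at h ⊢
    intro f hf
    have h1 : (fun g => f (fromC D P hP g)) ∈ U'.V := by
      have h0 : (fun g => f (fromC D P hP (toC D P hP g))) ∈ U.V := by
        simp only [from_to]
        exact hf
      exact (mem_pullSub _ _ _).2 h0
    have h2 := h _ h1
    funext g
    have h3 := congrFun h2 (toC D P hP g)
    simp only [from_to] at h3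
    exact h3
  obtain ⟨f, hf, hfV⟩ := hnt
  exact chev_simple (cjD D P hP) hI hd χ hχ
    (toSubRep (cjD D P hP) hI χ hχ U') hne' ⟨fun g => f (fromC D P hP g),
      (secD_iff _ hI χ hχ _).1 (secD_comp_from D P hP χ hf), by
      intro hcon
      apply hfV
      have h1 : (fun g => f (fromC D P hP (toC D P hP g))) ∈ U.V := (mem_pullSub _ _ _).1 hcon
      simp only [from_to] at h1
      exact h1⟩

end one

section two

variable {p : ℕ} [Fact p.Prime] {I : Type} [Fintype I] [DecidableEq I] {L : Type} [LieRing L]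
  [LieAlgebra ℚ_[p] L] {H : LieSubalgebra ℚ_[p] L} {b : LieAlgebra.Basis I H} {ι : Type}
  [Fintype ι] [DecidableEq ι]

variable {C : Type*} [NormedField C] [NormedAlgebra ℚ_[p] C] [CompleteSpace C]
  [IsUltrametricDist C]

theorem simple_V {rho : ℝ} (hd : Disc p C rho) (V : WeightRep b ι)
    (χ : (I → ℚ_[p]ˣ) →* Cˣ) (hχ : Continuous χ) (hred : Reducible V χ) :
    ∃ (k : I) (m : ℕ), ∀ x : ℚ_[p]ˣ, ((χ (cochar (Pi.single k 1) x) : Cˣ) : C)
        = ((algebraMap ℚ_[p] C (x : ℚ_[p])) ^ m)⁻¹ := by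
  obtain ⟨U, hU, hU0, hU1⟩ := hred
  exact simple_D hd (toChev V) χ hχ (toSub hU) (by
    intro h
    apply hU0
    rw [Submodule.eq_bot_iff] at h ⊢
    intro f hf
    have h2 := h (fun g => f (ofD V g)) ((mem_pullSub _ _ _).2 hf)
    funext g
    exact congrFun h2 (toD V g)) (by
    by_contra hcon
    push Not at hcon
    apply hU1
    refine le_antisymm hU.1 fun f hf => ?_
    exact (mem_pullSub _ _ _).1 (hcon (fun g => f (ofD V g)) (sec_toD hf)))

end two

end Pool.Agent.KS6_26.SR
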